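import Pool.Agent.Helper46_LAP.Fpa

/-!
# CN1: the event for the discrepancy
-/

set_option autoImplicit false

namespace Pool.Agent.LAP.H46

open scoped Classical
open Finset

variable {α β : Type}

/-- Pairs of links joined by an arc of `R'` with the property `P`. -/
noncomputable def prI (R' : Finset (α × β)) (P : α × β → Prop) (C : Finset (α × β)) :
    Finset ((α × β) × (α × β)) :=
  (C ×ˢ C).filter fun p => (p.1.1, p.2.2) ∈ R' ∧ P (p.1.1, p.2.2)

lemma mem_prI {R' : Finset (α × β)} {P : α × β → Prop} {C : Finset (α × β)}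
    {p : (α × β) × (α × β)} :
    p ∈ prI R' P C ↔ (p.1 ∈ C ∧ p.2 ∈ C) ∧ (p.1.1, p.2.2) ∈ R' ∧ P (p.1.1, p.2.2) := by
  simp only [prI, mem_filter, mem_product]

lemma card_prI (R' : Finset (α × β)) (P : α × β → Prop) {C : Finset (α × β)} (hC : PI C) :
    (R'.filter fun a => P a ∧ a.1 ∈ dom C ∧ a.2 ∈ ran C).card = (prI R' P C).card := by
  symm
  apply card_bij (fun p _ => (p.1.1, p.2.2))
  · intro p hp
    rw [mem_prI] at hp
    rw [mem_filter]
    exact ⟨hp.2.1, hp.2.2, mem_image.mpr ⟨p.1, hp.1.1, rfl⟩, mem_image.mpr ⟨p.2, hp.1.2, rfl⟩⟩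
  · intro p hp p' hp' h
    rw [mem_prI] at hp hp'
    obtain ⟨⟨x, y⟩, ⟨x', y'⟩⟩ := p
    obtain ⟨⟨u, v⟩, ⟨u', v'⟩⟩ := p'
    simp only [Prod.mk.injEq] at h hp hp'
    obtain ⟨rfl, rfl⟩ := h
    have h1 := hC.1 x y v hp.1.1 hp'.1.1
    have h2 := hC.2 x' u' y' hp.1.2 hp'.1.2
    rw [h1, h2]
  · intro a ha
    rw [mem_filter] at ha
    obtain ⟨l, hl, hl1⟩ := mem_image.mp ha.2.2.1
    obtain ⟨l', hl', hl2⟩ := mem_image.mp ha.2.2.2
    refine ⟨(l, l'), ?_, ?_⟩
    · rw [mem_prI]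
      simp only
      rw [hl1, hl2]
      exact ⟨⟨hl, hl'⟩, ha.1, ha.2.1⟩
    · simp only
      rw [hl1, hl2]

lemma card_ran {C : Finset (α × β)} (hC : PI C) (B : Finset β) :
    (ran C ∩ B).card = (C.filter fun l => l.2 ∈ B).card := by
  have : ran C ∩ B = (C.filter fun l => l.2 ∈ B).image Prod.snd := by
    ext y
    rw [mem_inter, ran, mem_image, mem_image]
    constructor
    · rintro ⟨⟨l, hl, rfl⟩, hB⟩
      exact ⟨l, mem_filter.mpr ⟨hl, hB⟩, rfl⟩
    · rintro ⟨l, hl, rfl⟩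
      rw [mem_filter] at hl
      exact ⟨⟨l, hl.1, rfl⟩, hl.2⟩
  rw [this]
  apply card_image_of_injOn
  intro l hl l' hl' h
  rw [Finset.mem_coe, mem_filter] at hl hl'
  obtain ⟨x, y⟩ := l
  obtain ⟨x', y'⟩ := l'
  simp only at h
  subst h
  rw [hC.2 x x' y hl.1 hl'.1]

lemma card_dom {C : Finset (α × β)} (hC : PI C) (A : Finset α) :
    (dom C ∩ A).card = (C.filter fun l => l.1 ∈ A).card := by
  have : dom C ∩ A = (C.filter fun l => l.1 ∈ A).image Prod.fst := by
    ext y
    rw [mem_inter, dom, mem_image, mem_image]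
    constructor
    · rintro ⟨⟨l, hl, rfl⟩, hB⟩
      exact ⟨l, mem_filter.mpr ⟨hl, hB⟩, rfl⟩
    · rintro ⟨l, hl, rfl⟩
      rw [mem_filter] at hl
      exact ⟨⟨l, hl.1, rfl⟩, hl.2⟩
  rw [this]
  apply card_image_of_injOn
  intro l hl l' hl' h
  rw [Finset.mem_coe, mem_filter] at hl hl'
  obtain ⟨x, y⟩ := l
  obtain ⟨x', y'⟩ := l'
  simp only at h
  subst h
  rw [hC.1 x y y' hl.1 hl'.1]

lemma PI.mono {C M : Finset (α × β)} (hM : PI M) (h : C ⊆ M) : PI C :=
  ⟨fun x y y' h1 h2 => hM.1 x y y' (h h1) (h h2), fun x x' y h1 h2 => hM.2 x x' y (h h1) (h h2)⟩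

/-- The property of the arcs of `ain`. -/
def pin (A : Finset α) (B : Finset β) : α × β → Prop := fun a => a.1 ∉ A ∧ a.2 ∈ B

/-- The property of the arcs of `aou`. -/
def pou (A : Finset α) (B : Finset β) : α × β → Prop := fun a => a.1 ∈ A ∧ a.2 ∉ B

lemma card_ain (R' : Finset (α × β)) {C : Finset (α × β)} (hC : PI C) (A : Finset α)
    (B : Finset β) : (ain R' (dom C) (ran C) A B).card = (prI R' (pin A B) C).card := by
  rw [← card_prI R' (pin A B) hC]
  congr 1
  ext a
  rw [ain, mem_filter, mem_filter]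
  unfold pin
  tauto

lemma card_aou (R' : Finset (α × β)) {C : Finset (α × β)} (hC : PI C) (A : Finset α)
    (B : Finset β) : (aou R' (dom C) (ran C) A B).card = (prI R' (pou A B) C).card := by
  rw [← card_prI R' (pou A B) hC]
  congr 1
  ext a
  rw [aou, mem_filter, mem_filter]
  unfold pou
  tauto

lemma cv_eq {U : Type} (rep : α × β → U) (sg : α × β → Bool) (ω : U → Bool) (l : α × β)
    (M : Finset (α × β)) (hl : l ∈ M) :
    cv rep sg ω l = if l ∈ cut M rep sg ω then 1 else 0 := by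
  unfold cv cut
  simp only [mem_filter, hl, true_and]

lemma sum_cv {U : Type} (rep : α × β → U) (sg : α × β → Bool) (ω : U → Bool)
    (M S : Finset (α × β)) (hS : S ⊆ M) :
    ∑ l ∈ S, cv rep sg ω l = ((S.filter fun l => l ∈ cut M rep sg ω).card : ℝ) := by
  rw [sum_congr rfl (fun l hl => cv_eq rep sg ω l M (hS hl)), sum_ite, sum_const_zero, add_zero,
    sum_const, nsmul_eq_mul, mul_one]

lemma sum_cv_pairs {U : Type} (rep : α × β → U) (sg : α × β → Bool) (ω : U → Bool)
    (R' M : Finset (α × β)) (P : α × β → Prop) :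
    ∑ p ∈ prI R' P M, cv rep sg ω p.1 * cv rep sg ω p.2
      = ((prI R' P (cut M rep sg ω)).card : ℝ) := by
  have h1 : ∀ p ∈ prI R' P M, cv rep sg ω p.1 * cv rep sg ω p.2
      = if p ∈ prI R' P (cut M rep sg ω) then 1 else 0 := by
    intro p hp
    rw [mem_prI] at hp
    rw [cv_eq rep sg ω p.1 M hp.1.1, cv_eq rep sg ω p.2 M hp.1.2]
    by_cases h2 : p.1 ∈ cut M rep sg ω
    · by_cases h3 : p.2 ∈ cut M rep sg ω
      · rw [if_pos h2, if_pos h3, if_pos (mem_prI.mpr ⟨⟨h2, h3⟩, hp.2⟩), mul_one]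
      · rw [if_neg h3, if_neg (fun h => h3 (mem_prI.mp h).1.2), mul_zero]
    · rw [if_neg h2, if_neg (fun h => h2 (mem_prI.mp h).1.1), zero_mul]
  rw [sum_congr rfl h1, sum_ite, sum_const_zero, add_zero, sum_const, nsmul_eq_mul, mul_one]
  congr 2
  ext p
  rw [mem_filter]
  constructor
  · exact fun h => h.2
  · intro h
    refine ⟨?_, h⟩
    rw [mem_prI] at h ⊢
    exact ⟨⟨(mem_filter.mp h.1.1).1, (mem_filter.mp h.1.2).1⟩, h.2⟩

/-- The discrepancy of the cut links as a quadratic form. -/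
lemma dsc_cut {U : Type} (rep : α × β → U) (sg : α × β → Bool) (ω : U → Bool)
    (R' M : Finset (α × β)) (hM : PI M) (D : ℝ) (A : Finset α) (B : Finset β) :
    dsc R' (dom (cut M rep sg ω)) (ran (cut M rep sg ω)) D A B =
      ∑ p ∈ prI R' (pin A B) M, cv rep sg ω p.1 * cv rep sg ω p.2 -
      ∑ p ∈ prI R' (pou A B) M, cv rep sg ω p.1 * cv rep sg ω p.2 -
      D * (∑ l ∈ M.filter (fun l => l.2 ∈ B), cv rep sg ω l -
        ∑ l ∈ M.filter (fun l => l.1 ∈ A), cv rep sg ω l) := by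
  have hsub : cut M rep sg ω ⊆ M := filter_subset _ _
  have hC : PI (cut M rep sg ω) := PI.mono hM hsub
  unfold dsc
  rw [card_ain R' hC, card_aou R' hC, card_ran hC, card_dom hC, sum_cv_pairs, sum_cv_pairs,
    sum_cv _ _ _ M _ (filter_subset _ _), sum_cv _ _ _ M _ (filter_subset _ _)]
  have e1 : ((cut M rep sg ω).filter fun l => l.2 ∈ B)
      = (M.filter fun l => l.2 ∈ B).filter fun l => l ∈ cut M rep sg ω := by
    ext l
    simp only [mem_filter]
    constructor
    · exact fun h => ⟨⟨hsub h.1, h.2⟩, h.1⟩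
    · exact fun h => ⟨h.2, h.1.2⟩
  have e2 : ((cut M rep sg ω).filter fun l => l.1 ∈ A)
      = (M.filter fun l => l.1 ∈ A).filter fun l => l ∈ cut M rep sg ω := by
    ext l
    simp only [mem_filter]
    constructor
    · exact fun h => ⟨⟨hsub h.1, h.2⟩, h.1⟩
    · exact fun h => ⟨h.2, h.1.2⟩
  rw [e1, e2]

lemma ex_cv {U : Type} [Fintype U] (rep : α × β → U) (sg : α × β → Bool) (l : α × β) :
    ex (fun ω : U → Bool => cv rep sg ω l) = 1 / 2 := by
  have h1 := pr_coord (U := U) (S := Bool) (rep l) {!sg l}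
  rw [pr_eq_ex] at h1
  rw [card_singleton] at h1
  have h2 : (Fintype.card Bool : ℝ) = 2 := by simp
  rw [h2] at h1
  push_cast at h1
  rw [← h1]
  congr 1
  funext ω
  unfold cv
  have h3 : (xor (ω (rep l)) (sg l) = true) ↔ ω ∈ {ω : U → Bool | ω (rep l) ∈ ({!sg l} : Finset Bool)} := by
    rw [Set.mem_ofPred_eq, mem_singleton]
    cases ω (rep l) <;> cases sg l <;> simp
  by_cases h4 : xor (ω (rep l)) (sg l) = true
  · rw [if_pos h4, if_pos (h3.mp h4)]
  · rw [if_neg h4, if_neg (fun h => h4 (h3.mpr h))]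

/-- The pairs with the same representative. -/
lemma card_same_le {U : Type} (M : Finset (α × β)) (rep : α × β → U) (sg : α × β → Bool)
    (hcn : Coin M rep sg) (I : Finset ((α × β) × (α × β)))
    (hI : ∀ p ∈ I, p.1 ∈ M ∧ p.2 ∈ M ∧ p.1 ≠ p.2) (S : Finset (α × β))
    (hS : (∀ p ∈ I, p.1 ∈ S) ∨ (∀ p ∈ I, p.2 ∈ S)) :
    (I.filter fun p => rep p.1 = rep p.2).card ≤ S.card := by
  have key : ∀ l l' l'' : α × β, l ∈ M → l' ∈ M → l'' ∈ M → l ≠ l'' → l' ≠ l'' →
      rep l = rep l'' → rep l' = rep l'' → l = l' := by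
    intro l l' l'' h1 h2 h3 h4 h5 h6 h7
    by_contra h8
    have e1 := hcn l h1 l'' h3 h4 h6
    have e2 := hcn l' h2 l'' h3 h5 h7
    have e3 := hcn l h1 l' h2 h8 (h6.trans h7.symm)
    revert e1 e2 e3
    cases sg l <;> cases sg l' <;> cases sg l'' <;> simp
  rcases hS with hS | hS
  · apply card_le_card_of_injOn (fun p => p.1)
    · intro p hp
      exact hS p (mem_filter.mp hp).1
    · intro p hp p' hp' h
      rw [Finset.mem_coe, mem_filter] at hp hp'
      have a1 := hI p hp.1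
      have a2 := hI p' hp'.1
      simp only at h
      have h9 : p.2 = p'.2 := key p.2 p'.2 p.1 a1.2.1 a2.2.1 a1.1 a1.2.2.symm
        (by rw [h]; exact a2.2.2.symm) hp.2.symm (by rw [h]; exact hp'.2.symm)
      exact Prod.ext h h9
  · apply card_le_card_of_injOn (fun p => p.2)
    · intro p hp
      exact hS p (mem_filter.mp hp).1
    · intro p hp p' hp' h
      rw [Finset.mem_coe, mem_filter] at hp hp'
      have a1 := hI p hp.1
      have a2 := hI p' hp'.1
      simp only at h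
      have h9 : p.1 = p'.1 := key p.1 p'.1 p.2 a1.1 a2.1 a1.2.1 a1.2.2
        (by rw [h]; exact a2.2.2) hp.2 (by rw [h]; exact hp'.2)
      exact Prod.ext h9 h

lemma pr_union_le {U S : Type} [Fintype U] [Fintype S] [Nonempty S] {A B C : Set (U → S)}
    (h : A ⊆ B ∪ C) : pr A ≤ pr B + pr C := by
  unfold pr
  rw [← add_div]
  apply div_le_div_of_nonneg_right _ (card_pos_fun (U := U) (S := S)).le
  have h1 : (univ.filter fun ω => ω ∈ A) ⊆ (univ.filter fun ω => ω ∈ B) ∪
      (univ.filter fun ω => ω ∈ C) := by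
    intro ω hω
    rw [mem_filter] at hω
    rw [mem_union, mem_filter, mem_filter]
    rcases h hω.2 with h2 | h2
    · exact Or.inl ⟨mem_univ _, h2⟩
    · exact Or.inr ⟨mem_univ _, h2⟩
  exact_mod_cast (card_le_card h1).trans (card_union_le _ _)

theorem cn1 (hM : QFMStmt) (hT : QFTStmt) (hSz : SIZStmt) : CN1Stmt := by
  intro k L q D δ η r T Rr ζ P P' hP α β _ _ E R R' X Y M rep sg hpre c Q hQ
  have hL := hP.L4
  have hLr : (10 ^ 4 : ℝ) ≤ L := by exact_mod_cast hL
  have hL0 : (0 : ℝ) < L := by linarith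
  have hL1 : (1 : ℝ) ≤ L := by linarith
  have hD19 := hP.D1
  have hD0 : 0 < D := lt_of_lt_of_le (by positivity) hD19
  have hδs : δ ≤ 1 / 1000 := by
    have h1 : (10 ^ 12 : ℝ) ≤ (L : ℝ) ^ 3 := by
      calc (10 ^ 12 : ℝ) = (10 ^ 4) ^ 3 := by norm_num
        _ ≤ (L : ℝ) ^ 3 := pow_le_pow_left₀ (by norm_num) hLr 3
    have h2 : δ * 10 ^ 12 ≤ δ * (L : ℝ) ^ 3 := mul_le_mul_of_nonneg_left h1 hP.d0
    linarith [hP.d1]
  have hcl := hpre.cl c
  have hMPI := hpre.mp c
  have hRE : R ⊆ E := hcl.sub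
  have hR'R := hpre.sub
  set A := clA E (L ^ 2) Q with hA
  set B := clB E (L ^ 2) Q with hB
  set I := prI R' (pin A B) (M c) with hI
  set O := prI R' (pou A B) (M c) with hO
  set SS := (M c).filter (fun l => l.2 ∈ B) with hSS
  set CC := (M c).filter (fun l => l.1 ∈ A) with hCC
  set rp' := rc rep c with hrp
  set f : (Fin q × (α × β) → Bool) → ℝ := fun ω =>
    ∑ p ∈ I, cv rp' (sg c) ω p.1 * cv rp' (sg c) ω p.2 -
    ∑ p ∈ O, cv rp' (sg c) ω p.1 * cv rp' (sg c) ω p.2 -
    (D / 2) * (∑ l ∈ SS, cv rp' (sg c) ω l - ∑ l ∈ CC, cv rp' (sg c) ω l) with hf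
  have hdsc : ∀ ω, dsc R' (dom (cu M rep sg ω c)) (ran (cu M rep sg ω c)) (D / 2) A B = f ω := by
    intro ω
    exact dsc_cut rp' (sg c) ω R' (M c) hMPI (D / 2) A B
  have hcn : Coin (M c) rp' (sg c) := by
    intro l hl l' hl' hne h
    exact hpre.cn c l hl l' hl' hne (Prod.mk.inj h).2
  have hIne : ∀ (Pp : α × β → Prop), ∀ p ∈ prI R' Pp (M c), p.1 ∈ M c ∧ p.2 ∈ M c ∧ p.1 ≠ p.2 := by
    intro Pp p hp
    rw [mem_prI] at hp
    refine ⟨hp.1.1, hp.1.2, ?_⟩
    intro h
    have h1 : (p.1.1, p.2.2) ∈ M c := by rw [h]; exact hp.1.2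
    exact (disjoint_left.mp (hpre.mR' c) h1) hp.2.1
  -- the mean
  have hIO : Disjoint I O := by
    rw [disjoint_left]
    intro p hp hp'
    rw [hI, mem_prI] at hp
    rw [hO, mem_prI] at hp'
    exact hp.2.2.1 hp'.2.2.1
  set cr := cq E R (X c) (Y c) L Q with hcr
  have hcr0 : 0 ≤ cr := Nat.cast_nonneg _
  have hIcard : ((ain R' (dom (M c)) (ran (M c)) A B).card : ℝ) = I.card := by
    rw [card_ain R' hMPI A B]
  have hOcard : ((aou R' (dom (M c)) (ran (M c)) A B).card : ℝ) = O.card := by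
    rw [card_aou R' hMPI A B]
  have hSScard : ((ran (M c) ∩ B).card : ℝ) = SS.card := by rw [card_ran hMPI B]
  have hCCcard : ((dom (M c) ∩ A).card : ℝ) = CC.card := by rw [card_dom hMPI A]
  set Is := (@Finset.filter _ (fun p => rp' p.1 = rp' p.2)
    (fun _ => Classical.propDecidable _) I) with hIs
  set Os := (@Finset.filter _ (fun p => rp' p.1 = rp' p.2)
    (fun _ => Classical.propDecidable _) O) with hOs
  have hexf : ex f = dsc R' (dom (M c)) (ran (M c)) D A B / 4 -
      ((Is.card : ℝ) - Os.card) / 4 := by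
    have e1 := hM (Fin q × (α × β)) (α × β) (M c) rp' (sg c) I hcn (hIne _)
    have e2 := hM (Fin q × (α × β)) (α × β) (M c) rp' (sg c) O hcn (hIne _)
    have e3 : ∀ S : Finset (α × β), ex (fun ω : Fin q × (α × β) → Bool =>
        ∑ l ∈ S, cv rp' (sg c) ω l) = (S.card : ℝ) / 2 := by
      intro S
      rw [ex_sum, sum_congr rfl (fun l _ => ex_cv rp' (sg c) l), sum_const, nsmul_eq_mul]
      ring
    have e4 : ex f = ex (fun ω => ∑ p ∈ I, cv rp' (sg c) ω p.1 * cv rp' (sg c) ω p.2) -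
        ex (fun ω => ∑ p ∈ O, cv rp' (sg c) ω p.1 * cv rp' (sg c) ω p.2) -
        (D / 2) * (ex (fun ω => ∑ l ∈ SS, cv rp' (sg c) ω l) -
          ex (fun ω => ∑ l ∈ CC, cv rp' (sg c) ω l)) := by
      simp only [hf, ex]
      rw [sum_sub_distrib, sum_sub_distrib, ← mul_sum, sum_sub_distrib]
      ring
    rw [e4, e1, e2, e3, e3]
    unfold dsc
    rw [hIcard, hOcard, hSScard, hCCcard]
    ring
  -- sizes
  have hdomX : dom (M c) ⊆ X c := by
    intro x hx
    obtain ⟨l, hl, rfl⟩ := mem_image.mp hx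
    exact (hpre.mR c l hl).2.1
  have hranY : ran (M c) ⊆ Y c := by
    intro y hy
    obtain ⟨l, hl, rfl⟩ := mem_image.mp hy
    exact (hpre.mR c l hl).2.2
  have hsz := hSz α β E R (X c) (Y c) L D δ Q hD0.le (by linarith) hcl
  have hSC : ((SS.card : ℝ) + CC.card) * (L : ℝ) ^ 2 ≤ 2 * Q.card * D := by
    rw [← hSScard, ← hCCcard]
    refine le_trans ?_ hsz
    apply mul_le_mul_of_nonneg_right _ (by positivity)
    rw [add_comm]
    apply add_le_add
    · exact_mod_cast card_le_card (inter_subset_inter_right hdomX)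
    · exact_mod_cast card_le_card (inter_subset_inter_right hranY)
  have hIs_le : (Is.card : ℝ) ≤ SS.card := by
    have := card_same_le (M c) rp' (sg c) hcn I (hIne _) SS (Or.inr (by
      intro p hp
      rw [hI, mem_prI] at hp
      rw [hSS, mem_filter]
      exact ⟨hp.1.2, hp.2.2.2⟩))
    exact_mod_cast this
  have hOs_le : (Os.card : ℝ) ≤ CC.card := by
    have := card_same_le (M c) rp' (sg c) hcn O (hIne _) CC (Or.inl (by
      intro p hp
      rw [hO, mem_prI] at hp
      rw [hCC, mem_filter]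
      exact ⟨hp.1.1, hp.2.2.1⟩))
    exact_mod_cast this
  have hQ1 : (1 : ℝ) ≤ Q.card := by
    exact_mod_cast card_pos.mpr hQ.1
  have hQD : 0 < (Q.card : ℝ) * D := by positivity
  have hmean : |ex f - dsc R' (dom (M c)) (ran (M c)) D A B / 4| ≤ Q.card * D := by
    have h1 : (SS.card : ℝ) + CC.card ≤ 2 * (Q.card * D) := by
      have h2 : (1 : ℝ) ≤ (L : ℝ) ^ 2 := one_le_pow₀ hL1
      have h3 : 0 ≤ (SS.card : ℝ) + CC.card := by positivity
      nlinarith
    rw [hexf, abs_le]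
    have h4 : (0 : ℝ) ≤ Is.card := Nat.cast_nonneg _
    have h5 : (0 : ℝ) ≤ Os.card := Nat.cast_nonneg _
    constructor <;> linarith
  -- the number of crossing arcs
  have hIOcr : (I.card : ℝ) + O.card ≤ cr := by
    rw [← hIcard, ← hOcard, hcr]
    unfold cq crs
    rw [card_union_of_disjoint]
    · push_cast
      apply add_le_add
      · have : ain R' (dom (M c)) (ran (M c)) A B ⊆ ain R (X c) (Y c) A B := by
          intro a ha
          simp only [ain, mem_filter] at ha ⊢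
          exact ⟨hR'R ha.1, ⟨hdomX ha.2.1.1, ha.2.1.2⟩, hranY ha.2.2.1, ha.2.2.2⟩
        exact_mod_cast card_le_card this
      · have : aou R' (dom (M c)) (ran (M c)) A B ⊆ aou R (X c) (Y c) A B := by
          intro a ha
          simp only [aou, mem_filter] at ha ⊢
          exact ⟨hR'R ha.1, ⟨hdomX ha.2.1.1, ha.2.1.2⟩, hranY ha.2.2.1, ha.2.2.2⟩
        exact_mod_cast card_le_card this
    · rw [disjoint_left]
      intro a ha ha'
      simp only [ain, aou, mem_filter] at ha ha'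
      exact ha.2.1.2 ha'.2.1.2
  have hsd : ((symmDiff SS CC).card : ℝ) ≤ 4 * (L : ℝ) ^ 5 / D * cr + (L : ℝ) ^ 2 * Q.card := by
    refine le_trans ?_ (hpre.m2 c Q hQ)
    have : symmDiff SS CC ⊆ crs R (X c) (Y c) A B ∩ M c := by
      intro l hl
      rw [mem_symmDiff] at hl
      simp only [hSS, hCC, mem_filter, not_and] at hl
      rw [mem_inter, crs, mem_union]
      simp only [ain, aou, mem_filter]
      rcases hl with ⟨⟨h1, h2⟩, h3⟩ | ⟨⟨h1, h2⟩, h3⟩
      · have h4 := hpre.mR c l h1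
        exact ⟨Or.inl ⟨h4.1, ⟨h4.2.1, h3 h1⟩, h4.2.2, h2⟩, h1⟩
      · have h4 := hpre.mR c l h1
        exact ⟨Or.inr ⟨h4.1, ⟨h4.2.1, h2⟩, h4.2.2, h3 h1⟩, h1⟩
    exact_mod_cast card_le_card this
  -- the degrees of the pairs
  have hdeg : ∀ l ∈ M c, ((((I.filter fun p => p.1 = l ∨ p.2 = l).card : ℕ) : ℝ) +
      ((O.filter fun p => p.1 = l ∨ p.2 = l).card : ℕ) ≤ 21 / 10 * D) := by
    intro l hl
    set IO := I ∪ O with hIOdef
    have e1 : (I.filter fun p => p.1 = l ∨ p.2 = l).card + (O.filter fun p => p.1 = l ∨ p.2 = l).card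
        = (IO.filter fun p => p.1 = l ∨ p.2 = l).card := by
      rw [hIOdef, filter_union, card_union_of_disjoint]
      exact disjoint_filter_filter hIO
    have hIOm : ∀ p ∈ IO, (p.1 ∈ M c ∧ p.2 ∈ M c) ∧ (p.1.1, p.2.2) ∈ R' := by
      intro p hp
      rcases mem_union.mp hp with h | h
      · have := mem_prI.mp h
        exact ⟨this.1, this.2.1⟩
      · have := mem_prI.mp h
        exact ⟨this.1, this.2.1⟩
    have e2 : (IO.filter fun p => p.1 = l ∨ p.2 = l).card ≤
        (IO.filter fun p => p.1 = l).card + (IO.filter fun p => p.2 = l).card := by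
      rw [filter_or]
      exact card_union_le _ _
    have e3 : (IO.filter fun p => p.1 = l).card ≤ (out E l.1 ∩ Y c).card := by
      apply card_le_card_of_injOn (fun p => p.2.2)
      · intro p hp
        rw [Finset.mem_coe, mem_filter] at hp
        have h1 := hIOm p hp.1
        rw [Finset.mem_coe, mem_inter, out, mem_filter]
        rw [hp.2] at h1
        exact ⟨⟨mem_univ _, hRE (hR'R h1.2)⟩, (hpre.mR c p.2 h1.1.2).2.2⟩
      · intro p hp p' hp' h
        rw [Finset.mem_coe, mem_filter] at hp hp'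
        have h1 := (hIOm p hp.1).1.2
        have h2 := (hIOm p' hp'.1).1.2
        apply Prod.ext (hp.2.trans hp'.2.symm)
        simp only at h
        apply Prod.ext _ h
        apply hMPI.2 p.2.1 p'.2.1 p.2.2 h1
        rw [h]
        exact h2
    have e4 : (IO.filter fun p => p.2 = l).card ≤ (inn E l.2 ∩ X c).card := by
      apply card_le_card_of_injOn (fun p => p.1.1)
      · intro p hp
        rw [Finset.mem_coe, mem_filter] at hp
        have h1 := hIOm p hp.1
        rw [Finset.mem_coe, mem_inter, inn, mem_filter]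
        rw [hp.2] at h1
        exact ⟨⟨mem_univ _, hRE (hR'R h1.2)⟩, (hpre.mR c p.1 h1.1.1).2.1⟩
      · intro p hp p' hp' h
        rw [Finset.mem_coe, mem_filter] at hp hp'
        have h1 := (hIOm p hp.1).1.1
        have h2 := (hIOm p' hp'.1).1.1
        refine Prod.ext ?_ (hp.2.trans hp'.2.symm)
        simp only at h
        apply Prod.ext h
        apply hMPI.1 p.1.1 p.1.2 p'.1.2 h1
        rw [h]
        exact h2
    have e5 := hcl.ou l.1
    have e6 := hcl.iu l.2
    have e7 : ((((I.filter fun p => p.1 = l ∨ p.2 = l).card : ℕ) : ℝ) +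
        ((O.filter fun p => p.1 = l ∨ p.2 = l).card : ℕ)) ≤
        (out E l.1 ∩ Y c).card + (inn E l.2 ∩ X c).card := by
      have : (I.filter fun p => p.1 = l ∨ p.2 = l).card + (O.filter fun p => p.1 = l ∨ p.2 = l).card
          ≤ (out E l.1 ∩ Y c).card + (inn E l.2 ∩ X c).card := by omega
      exact_mod_cast this
    nlinarith
  set s : ℝ := 5 * (L : ℝ) ^ 5 * D * cr + (L : ℝ) ^ 2 * Q.card * D ^ 2 with hs
  set t : ℝ := 1 / (L : ℝ) ^ 4 * cr + 3 * (L : ℝ) ^ 11 * Q.card * D with ht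
  have hs0 : 0 < s := by
    have : 0 < (L : ℝ) ^ 2 * Q.card * D ^ 2 := by positivity
    have : 0 ≤ 5 * (L : ℝ) ^ 5 * D * cr := by positivity
    linarith
  have ht0 : 0 ≤ t := by positivity
  have hsle : 8 * (21 / 10 * D) * (I.card + O.card) + 4 * (D / 2) ^ 2 * (symmDiff SS CC).card ≤ s := by
    have h1 : 8 * (21 / 10 * D) * ((I.card : ℝ) + O.card) ≤ (L : ℝ) ^ 5 * D * cr := by
      have h2 : 8 * (21 / 10) ≤ (L : ℝ) ^ 5 := by
        calc (8 * (21 / 10) : ℝ) ≤ L := by linarith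
          _ = (L : ℝ) ^ 1 := (pow_one _).symm
          _ ≤ (L : ℝ) ^ 5 := pow_le_pow_right₀ hL1 (by norm_num)
      calc 8 * (21 / 10 * D) * ((I.card : ℝ) + O.card) = (8 * (21 / 10)) * D * (I.card + O.card) := by
            ring
        _ ≤ (L : ℝ) ^ 5 * D * cr := by
            apply mul_le_mul _ hIOcr (by positivity) (by positivity)
            exact mul_le_mul_of_nonneg_right h2 hD0.le
    have h3 : 4 * (D / 2) ^ 2 * ((symmDiff SS CC).card : ℝ) ≤
        4 * (L : ℝ) ^ 5 * D * cr + (L : ℝ) ^ 2 * Q.card * D ^ 2 := by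
      calc 4 * (D / 2) ^ 2 * ((symmDiff SS CC).card : ℝ)
          ≤ 4 * (D / 2) ^ 2 * (4 * (L : ℝ) ^ 5 / D * cr + (L : ℝ) ^ 2 * Q.card) :=
            mul_le_mul_of_nonneg_left hsd (by positivity)
        _ = _ := by
            have : D ≠ 0 := hD0.ne'
            field_simp
            ring
    rw [hs]
    nlinarith
  have hqft := hT (Fin q × (α × β)) (α × β) (M c) rp' (sg c) I O SS CC (D / 2) (21 / 10 * D) s t hcn
    (by
      intro p hp
      rcases (@mem_union _ (_) _ _ _).mp hp with h | h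
      · exact hIne _ p h
      · exact hIne _ p h) (filter_subset _ _) (filter_subset _ _)
    (by
      intro l hl
      convert hdeg l hl) (by positivity) ht0 hs0 (by convert hsle)
  have hexp : Real.exp (-(2 * t ^ 2 / s)) ≤ 1 / 2 * Real.exp (-((L : ℝ) ^ 2 * Q.card)) := by
    have h1 : (L : ℝ) ^ 2 * Q.card + 1 ≤ 2 * t ^ 2 / s := by
      rw [le_div_iff₀ hs0]
      have h2 : (L : ℝ) ^ 2 * Q.card + 1 ≤ 2 * ((L : ℝ) ^ 2 * Q.card) := by
        have : (1 : ℝ) ≤ (L : ℝ) ^ 2 := one_le_pow₀ hL1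
        nlinarith
      have h3 : ((L : ℝ) ^ 2 * Q.card + 1) * s ≤ 2 * ((L : ℝ) ^ 2 * Q.card) * s :=
        mul_le_mul_of_nonneg_right h2 hs0.le
      refine h3.trans ?_
      set p1 : ℝ := 1 / (L : ℝ) ^ 4 * cr with hp1
      set q1 : ℝ := 3 * (L : ℝ) ^ 11 * Q.card * D with hq1
      have h4 : 4 * (p1 * q1) + q1 ^ 2 ≤ 2 * t ^ 2 := by
        have h5 : 0 ≤ p1 := by positivity
        have h6 : 0 ≤ q1 := by positivity
        rw [ht]
        nlinarith [sq_nonneg (p1 - q1), mul_nonneg h5 h6, sq_nonneg p1]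
      refine le_trans ?_ h4
      have h7 : p1 * q1 = 3 * (L : ℝ) ^ 7 * Q.card * D * cr := by
        rw [hp1, hq1]
        have h70 : (L : ℝ) ^ 11 = (L : ℝ) ^ 4 * (L : ℝ) ^ 7 := by ring
        have h71 : (L : ℝ) ^ 4 ≠ 0 := by positivity
        rw [h70]
        field_simp
      have h8 : q1 ^ 2 = 9 * (L : ℝ) ^ 22 * (Q.card : ℝ) ^ 2 * D ^ 2 := by
        rw [hq1]; ring
      have h9 : 2 * ((L : ℝ) ^ 2 * Q.card) * s = 10 * (L : ℝ) ^ 7 * Q.card * D * cr +
          2 * (L : ℝ) ^ 4 * (Q.card : ℝ) ^ 2 * D ^ 2 := by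
        rw [hs]; ring
      rw [h7, h8, h9]
      have h10 : 10 * (L : ℝ) ^ 7 * Q.card * D * cr ≤ 4 * (3 * (L : ℝ) ^ 7 * Q.card * D * cr) := by
        have : 0 ≤ (L : ℝ) ^ 7 * Q.card * D * cr := by positivity
        linarith
      have h11 : 2 * (L : ℝ) ^ 4 * (Q.card : ℝ) ^ 2 * D ^ 2 ≤
          9 * (L : ℝ) ^ 22 * (Q.card : ℝ) ^ 2 * D ^ 2 := by
        have h12 : (L : ℝ) ^ 4 ≤ (L : ℝ) ^ 22 := pow_le_pow_right₀ hL1 (by norm_num)
        have h13 : 2 * (L : ℝ) ^ 4 ≤ 9 * (L : ℝ) ^ 22 := by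
          have : 0 ≤ (L : ℝ) ^ 22 := by positivity
          linarith
        apply mul_le_mul_of_nonneg_right _ (by positivity)
        exact mul_le_mul_of_nonneg_right h13 (by positivity)
      linarith
    calc Real.exp (-(2 * t ^ 2 / s)) ≤ Real.exp (-((L : ℝ) ^ 2 * Q.card + 1)) := by
          apply Real.exp_le_exp.mpr
          linarith
      _ = Real.exp (-1) * Real.exp (-((L : ℝ) ^ 2 * Q.card)) := by
          rw [← Real.exp_add]; congr 1; ring
      _ ≤ 1 / 2 * Real.exp (-((L : ℝ) ^ 2 * Q.card)) := by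
          apply mul_le_mul_of_nonneg_right _ (Real.exp_pos _).le
          rw [Real.exp_neg, one_div]
          apply inv_anti₀ (by norm_num)
          linarith [Real.add_one_le_exp (1 : ℝ)]
  right
  refine ⟨hQ, ?_, ?_⟩
  · -- locality
    set Inv := SS ∪ CC ∪ (I.image Prod.fst ∪ I.image Prod.snd) ∪
      (O.image Prod.fst ∪ O.image Prod.snd) with hInv
    refine ⟨Inv.image fun l => rp' l, ?_, ?_⟩
    · intro ω ω' hωω' hω
      have hcv : ∀ l ∈ Inv, cv rp' (sg c) ω l = cv rp' (sg c) ω' l := by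
        intro l hl
        unfold cv
        rw [hωω' (rp' l) (mem_image_of_mem _ hl)]
      have hff : f ω = f ω' := by
        simp only [hf]
        have a1 : ∀ p ∈ I, cv rp' (sg c) ω p.1 * cv rp' (sg c) ω p.2 =
            cv rp' (sg c) ω' p.1 * cv rp' (sg c) ω' p.2 := by
          intro p hp
          rw [hcv p.1 (mem_union_left _ (mem_union_right _ (mem_union_left _
            (mem_image_of_mem _ hp)))), hcv p.2 (mem_union_left _ (mem_union_right _
            (mem_union_right _ (mem_image_of_mem _ hp))))]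
        have a2 : ∀ p ∈ O, cv rp' (sg c) ω p.1 * cv rp' (sg c) ω p.2 =
            cv rp' (sg c) ω' p.1 * cv rp' (sg c) ω' p.2 := by
          intro p hp
          rw [hcv p.1 (mem_union_right _ (mem_union_left _ (mem_image_of_mem _ hp))),
            hcv p.2 (mem_union_right _ (mem_union_right _ (mem_image_of_mem _ hp)))]
        have a3 : ∀ l ∈ SS, cv rp' (sg c) ω l = cv rp' (sg c) ω' l := fun l hl =>
          hcv l (mem_union_left _ (mem_union_left _ (mem_union_left _ hl)))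
        have a4 : ∀ l ∈ CC, cv rp' (sg c) ω l = cv rp' (sg c) ω' l := fun l hl =>
          hcv l (mem_union_left _ (mem_union_left _ (mem_union_right _ hl)))
        rw [sum_congr rfl a1, sum_congr rfl a2, sum_congr rfl a3, sum_congr rfl a4]
      rw [Set.mem_ofPred_eq, hdsc ω] at hω
      rw [Set.mem_ofPred_eq, hdsc ω', ← hff]
      exact hω
    · intro u hu
      obtain ⟨l, hl, rfl⟩ := mem_image.mp hu
      have hloc : ∀ l ∈ M c, Sum.inl l.1 ∈ locC M rep (rp' l) ∧ Sum.inr l.2 ∈ locC M rep (rp' l) := by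
        intro l hl
        have h1 : l ∈ (M (rp' l).1).filter fun l' => rep (rp' l).1 l' = (rp' l).2 := by
          rw [mem_filter]
          exact ⟨hl, rfl⟩
        constructor
        · rw [locC, mem_biUnion]
          exact ⟨l, h1, by simp⟩
        · rw [locC, mem_biUnion]
          exact ⟨l, h1, by simp⟩
      -- a head in the closure is adjacent to `Q`
      have hL2n : 1 ≤ L ^ 2 := Nat.one_le_pow _ _ (by omega)
      have hBadj : ∀ y ∈ B, ∃ z ∈ Q, sadj E (Sum.inr y) z := by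
        intro y hy
        rw [hB] at hy
        simp only [clB, clI, mem_filter, mem_univ, true_and] at hy
        obtain ⟨x, hx⟩ := card_pos.mp (lt_of_lt_of_le (by omega : 0 < L ^ 2) hy)
        rw [mem_inter] at hx
        simp only [inn, lp, mem_filter, mem_univ, true_and] at hx
        exact ⟨Sum.inl x, hx.2, hx.1⟩
      have hAadj : ∀ x ∈ A, ∃ z ∈ Q, sadj E (Sum.inl x) z := by
        intro x hx
        rw [hA] at hx
        simp only [clA, clO, mem_filter, mem_univ, true_and] at hx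
        obtain ⟨y, hy⟩ := card_pos.mp (lt_of_lt_of_le (by omega : 0 < L ^ 2) hx)
        rw [mem_inter] at hy
        simp only [out, rp, mem_filter, mem_univ, true_and] at hy
        exact ⟨Sum.inr y, hy.2, hy.1⟩
      have hSScase : ∀ l ∈ SS, ∃ w ∈ locC M rep (rp' l), ∃ z ∈ Q, nr3 (sadj E) w z := by
        intro l hl
        rw [hSS, mem_filter] at hl
        obtain ⟨z, hz, hadj⟩ := hBadj l.2 hl.2
        exact ⟨Sum.inr l.2, (hloc l hl.1).2, z, hz, z, z, Or.inr hadj, Or.inl rfl, Or.inl rfl⟩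
      have hCCcase : ∀ l ∈ CC, ∃ w ∈ locC M rep (rp' l), ∃ z ∈ Q, nr3 (sadj E) w z := by
        intro l hl
        rw [hCC, mem_filter] at hl
        obtain ⟨z, hz, hadj⟩ := hAadj l.1 hl.2
        exact ⟨Sum.inl l.1, (hloc l hl.1).1, z, hz, z, z, Or.inr hadj, Or.inl rfl, Or.inl rfl⟩
      rcases mem_union.mp hl with hl | hl
      · rcases mem_union.mp hl with hl | hl
        · rcases mem_union.mp hl with hl | hl
          · exact hSScase l hl
          · exact hCCcase l hl
        · rcases mem_union.mp hl with hl | hl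
          · obtain ⟨p, hp, rfl⟩ := mem_image.mp hl
            rw [hI, mem_prI] at hp
            obtain ⟨z, hz, hadj⟩ := hBadj p.2.2 hp.2.2.2
            exact ⟨Sum.inl p.1.1, (hloc p.1 hp.1.1).1, z, hz, Sum.inr p.2.2, z,
              Or.inr (hRE (hR'R hp.2.1)), Or.inr hadj, Or.inl rfl⟩
          · obtain ⟨p, hp, rfl⟩ := mem_image.mp hl
            rw [hI, mem_prI] at hp
            apply hSScase
            rw [hSS, mem_filter]
            exact ⟨hp.1.2, hp.2.2.2⟩
      · rcases mem_union.mp hl with hl | hl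
        · obtain ⟨p, hp, rfl⟩ := mem_image.mp hl
          rw [hO, mem_prI] at hp
          apply hCCcase
          rw [hCC, mem_filter]
          exact ⟨hp.1.1, hp.2.2.1⟩
        · obtain ⟨p, hp, rfl⟩ := mem_image.mp hl
          rw [hO, mem_prI] at hp
          obtain ⟨z, hz, hadj⟩ := hAadj p.1.1 hp.2.2.1
          exact ⟨Sum.inr p.2.2, (hloc p.2 hp.1.2).2, z, hz, Sum.inl p.1.1, z,
            Or.inr (hRE (hR'R hp.2.1)), Or.inr hadj, Or.inl rfl⟩
  · -- probability
    have hsub : {ω | ¬ (|dsc R' (dom (cu M rep sg ω c)) (ran (cu M rep sg ω c)) (D / 2) A B -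
        dsc R' (dom (M c)) (ran (M c)) D A B / 4| ≤
        1 / (L : ℝ) ^ 4 * cr + (3 * (L : ℝ) ^ 11 + 1) * Q.card * D)} ⊆
        {ω | ex f + t ≤ f ω} ∪ {ω | f ω ≤ ex f - t} := by
      intro ω hω
      rw [Set.mem_ofPred_eq, hdsc ω] at hω
      by_contra hcon
      rw [Set.mem_union, not_or, Set.mem_ofPred_eq, Set.mem_ofPred_eq, not_le, not_le] at hcon
      apply hω
      rw [abs_le] at hmean ⊢
      have h1 : 1 / (L : ℝ) ^ 4 * cr + (3 * (L : ℝ) ^ 11 + 1) * Q.card * D = t + Q.card * D := by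
        rw [ht]; ring
      rw [h1]
      constructor <;> linarith [hcon.1, hcon.2, hmean.1, hmean.2]
    refine (pr_union_le hsub).trans ?_
    have h1 := hqft.1
    have h2 := hqft.2
    calc pr {ω | ex f + t ≤ f ω} + pr {ω | f ω ≤ ex f - t}
        ≤ Real.exp (-(2 * t ^ 2 / s)) + Real.exp (-(2 * t ^ 2 / s)) := add_le_add h1 h2
      _ ≤ 1 / 2 * Real.exp (-((L : ℝ) ^ 2 * Q.card)) + 1 / 2 * Real.exp (-((L : ℝ) ^ 2 * Q.card)) :=
          add_le_add hexp hexp
      _ = Real.exp (-((L : ℝ) ^ 2 * Q.card)) := by ring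

end Pool.Agent.LAP.H46
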