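import Pool.Agent.Helper23_LAP.Stmts

/-!
# FPA: fingerprint, one side
-/

set_option autoImplicit false

namespace Pool.Agent.LAP.H46

open scoped Classical
open Finset

variable {U S : Type} [Fintype U] [Fintype S]

lemma card_pos_fun [Nonempty S] : (0 : ℝ) < (Fintype.card (U → S) : ℝ) := by
  exact_mod_cast Fintype.card_pos

lemma pr_mono [Nonempty S] {A B : Set (U → S)} (h : A ⊆ B) : pr A ≤ pr B := by
  unfold pr
  apply div_le_div_of_nonneg_right _ (card_pos_fun (U := U) (S := S)).le
  exact_mod_cast card_le_card (fun ω hω => by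
    rw [mem_filter] at hω ⊢
    exact ⟨hω.1, h hω.2⟩)

lemma pr_eq_ex (A : Set (U → S)) : pr A = ex (fun ω => if ω ∈ A then (1 : ℝ) else 0) := by
  unfold pr ex
  rw [sum_ite, sum_const_zero, add_zero, sum_const, nsmul_eq_mul, mul_one]

lemma ex_add (f g : (U → S) → ℝ) : ex (fun ω => f ω + g ω) = ex f + ex g := by
  unfold ex
  rw [sum_add_distrib, add_div]

lemma ex_mul (c : ℝ) (f : (U → S) → ℝ) : ex (fun ω => c * f ω) = c * ex f := by
  unfold ex
  rw [← mul_sum, mul_div_assoc]

lemma ex_sum {ι : Type} (I : Finset ι) (f : ι → (U → S) → ℝ) :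
    ex (fun ω => ∑ i ∈ I, f i ω) = ∑ i ∈ I, ex (f i) := by
  unfold ex
  rw [sum_comm, sum_div]

lemma exists_le_of_ex_le [Nonempty S] {f : (U → S) → ℝ} {c : ℝ} (h : ex f ≤ c) :
    ∃ ω, f ω ≤ c := by
  by_contra hcon
  have hcon' : ∀ ω, c < f ω := fun ω => not_le.mp fun h' => hcon ⟨ω, h'⟩
  have hne : (univ : Finset (U → S)).Nonempty := univ_nonempty
  have h1 : ∑ ω : U → S, c < ∑ ω, f ω := sum_lt_sum_of_nonempty hne (fun ω _ => hcon' ω)
  rw [sum_const, nsmul_eq_mul, card_univ] at h1
  unfold ex at h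
  rw [div_le_iff₀ card_pos_fun] at h
  linarith

lemma pr_coord [Nonempty S] (y : U) (g : Finset S) :
    pr {ω : U → S | ω y ∈ g} = (g.card : ℝ) / (Fintype.card S : ℝ) := by
  have hS : (0 : ℝ) < (Fintype.card S : ℝ) := by exact_mod_cast Fintype.card_pos
  have h1 : ∀ inst : DecidablePred (fun ω : U → S => ω ∈ {ω : U → S | ω y ∈ g}),
      (@Finset.filter _ (fun ω : U → S => ω ∈ {ω : U → S | ω y ∈ g}) inst univ)
      = Fintype.piFinset (fun u => if u = y then g else univ) := by
    intro inst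
    ext ω
    rw [mem_filter, Fintype.mem_piFinset]
    constructor
    · rintro ⟨_, h⟩ u
      split_ifs with hu
      · subst hu; exact h
      · exact mem_univ _
    · intro h
      refine ⟨mem_univ _, ?_⟩
      have := h y
      simpa using this
  unfold pr
  rw [h1, Fintype.card_piFinset, Fintype.card_fun]
  push_cast
  have h2 : (Fintype.card S : ℝ) ^ Fintype.card U = ∏ _u : U, (Fintype.card S : ℝ) := by
    rw [prod_const, card_univ]
  rw [h2, ← prod_div_distrib]
  have h3 : ∀ u : U, (((if u = y then g else univ) : Finset S).card : ℝ) / (Fintype.card S : ℝ)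
      = if u = y then (g.card : ℝ) / (Fintype.card S : ℝ) else 1 := by
    intro u
    split_ifs
    · rfl
    · rw [card_univ, div_self hS.ne']
  rw [prod_congr rfl (fun u _ => h3 u), prod_ite_eq']
  simp

/-- Numerical fact: `D ^ 2` is tiny compared with `exp (L ^ 2 / 15)`. -/
lemma num_small {L : ℕ} {D : ℝ} (hL : 10 ^ 4 ≤ L) (hD0 : 0 ≤ D) (hD : D ≤ 2 ^ L) :
    16 * D * (2 * D) * Real.exp (-((L : ℝ) ^ 2 / 15)) ≤ 1 := by
  have hLr : (10 ^ 4 : ℝ) ≤ L := by exact_mod_cast hL
  have h1 : D * D ≤ Real.exp (2 * L) := by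
    have h2 : D ≤ Real.exp L := by
      calc D ≤ (2 : ℝ) ^ L := hD
        _ ≤ (Real.exp 1) ^ L := by
            apply pow_le_pow_left₀ (by norm_num)
            linarith [Real.add_one_le_exp (1 : ℝ)]
        _ = Real.exp L := by rw [← Real.exp_nat_mul, mul_one]
    calc D * D ≤ Real.exp L * Real.exp L := mul_le_mul h2 h2 hD0 (Real.exp_pos _).le
      _ = Real.exp (2 * L) := by rw [← Real.exp_add]; congr 1; ring
  have h3 : (32 : ℝ) ≤ Real.exp 5 := by
    have h4 : (2 : ℝ) ^ 5 ≤ (Real.exp 1) ^ 5 := by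
      apply pow_le_pow_left₀ (by norm_num)
      linarith [Real.add_one_le_exp (1 : ℝ)]
    have h5 : (Real.exp 1) ^ 5 = Real.exp 5 := by
      rw [← Real.exp_nat_mul]; norm_num
    rw [h5] at h4
    linarith
  calc 16 * D * (2 * D) * Real.exp (-((L : ℝ) ^ 2 / 15))
      = 32 * (D * D) * Real.exp (-((L : ℝ) ^ 2 / 15)) := by ring
    _ ≤ Real.exp 5 * Real.exp (2 * L) * Real.exp (-((L : ℝ) ^ 2 / 15)) := by
        apply mul_le_mul_of_nonneg_right _ (Real.exp_pos _).le
        apply mul_le_mul h3 h1 (by positivity) (Real.exp_pos _).le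
    _ = Real.exp (5 + 2 * L - (L : ℝ) ^ 2 / 15) := by
        rw [← Real.exp_add, ← Real.exp_add]; congr 1
    _ ≤ 1 := by
        rw [Real.exp_le_one_iff]
        nlinarith

theorem fpa (hU : THUStmt) (hLo : THLStmt) : FPAStmt := by
  intro α β _ _ E R X Y L D δ A B hL hD1 hD2 hδ0 hδ1 hcl hAX hBY
  have hLr : (10 ^ 4 : ℝ) ≤ L := by exact_mod_cast hL
  have hL0 : (0 : ℝ) < L := by linarith
  have hL2 : (1 : ℝ) ≤ (L : ℝ) ^ 2 := one_le_pow₀ (by linarith)
  have hL19 : (10 ^ 8 : ℝ) * (L : ℝ) ^ 2 ≤ D := by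
    refine le_trans ?_ hD1
    calc (10 ^ 8 : ℝ) * (L : ℝ) ^ 2 = ((10 ^ 4 : ℝ) ^ 2) * (L : ℝ) ^ 2 := by norm_num
      _ ≤ ((L : ℝ) ^ 2) * (L : ℝ) ^ 2 := by gcongr
      _ = (L : ℝ) ^ 4 := by ring
      _ ≤ (L : ℝ) ^ 19 := pow_le_pow_right₀ (by linarith) (by norm_num)
  have hD0 : 0 < D := by nlinarith
  -- `δ` is small
  have hδs : δ ≤ 1 / 1000 := by
    have h1 : (10 ^ 12 : ℝ) ≤ (L : ℝ) ^ 3 := by
      calc (10 ^ 12 : ℝ) = (10 ^ 4) ^ 3 := by norm_num
        _ ≤ (L : ℝ) ^ 3 := pow_le_pow_left₀ (by norm_num) hLr 3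
    have h2 : δ * 10 ^ 12 ≤ δ * (L : ℝ) ^ 3 := mul_le_mul_of_nonneg_left h1 hδ0
    linarith
  -- number of labels
  set N : ℕ := ⌊D / (2 * (L : ℝ) ^ 2)⌋₊ with hN
  have hN1 : (N : ℝ) ≤ D / (2 * (L : ℝ) ^ 2) := Nat.floor_le (by positivity)
  have hN2 : D / (2 * (L : ℝ) ^ 2) < N + 1 := Nat.lt_floor_add_one _
  have hbig : (10 ^ 7 : ℝ) ≤ D / (2 * (L : ℝ) ^ 2) := by
    rw [le_div_iff₀ (by positivity)]
    nlinarith
  have hN0 : (0 : ℝ) < N := by linarith
  have hNn : 0 < N := by exact_mod_cast hN0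
  have hNe : NeZero N := ⟨hNn.ne'⟩
  have hND1 : 2 * (L : ℝ) ^ 2 * N ≤ D := by
    rw [le_div_iff₀ (by positivity)] at hN1
    linarith
  have hND2 : D ≤ 201 / 100 * (L : ℝ) ^ 2 * N := by
    have h1 : (10 ^ 6 : ℝ) ≤ N := by linarith
    rw [div_lt_iff₀ (by positivity)] at hN2
    nlinarith
  -- the random set
  set g : Finset (Fin N) := {0} with hg
  have hgc : ((g.card : ℝ) / (Fintype.card (Fin N) : ℝ)) = 1 / N := by
    rw [hg, card_singleton, Fintype.card_fin]; norm_num
  set Q : (β → Fin N) → Finset β := fun ω => B.filter fun y => ω y ∈ g with hQ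
  have hcard : ∀ (x : α) (ω : β → Fin N), (((out E x ∩ Q ω).card : ℕ) : ℝ)
      = ∑ y ∈ out E x ∩ B, if ω y ∈ g then (1 : ℝ) else 0 := by
    intro x ω
    rw [sum_ite, sum_const_zero, add_zero, sum_const, nsmul_eq_mul, mul_one]
    congr 2
    ext y
    simp only [hQ, mem_inter, mem_filter]
    tauto
  -- good vertices
  set G1 := A.filter fun x => ((out R x ∩ (Y \ B)).card : ℝ) < D / 4 with hG1
  set G2 := (X \ A).filter fun x => ((out R x ∩ B).card : ℝ) < D / 8 ∧ (out E x ∩ B).Nonempty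
    with hG2
  -- first kind of error
  have hp1 : ∀ x ∈ G1, pr {ω : β → Fin N | (out E x ∩ Q ω).card < L ^ 2}
      ≤ Real.exp (-((L : ℝ) ^ 2 / 15)) := by
    intro x hx
    rw [hG1, mem_filter] at hx
    have h1 := hcl.ol x
    have h2 : ((out R x ∩ Y).card : ℝ) ≤ (out R x ∩ B).card + (out R x ∩ (Y \ B)).card := by
      have : out R x ∩ Y ⊆ (out R x ∩ B) ∪ (out R x ∩ (Y \ B)) := by
        intro y hy
        simp only [mem_inter, mem_union, mem_sdiff] at hy ⊢
        tauto
      exact_mod_cast (card_le_card this).trans (card_union_le _ _)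
    have h3 : ((out R x ∩ B).card : ℝ) ≤ (out E x ∩ B).card := by
      have : out R x ∩ B ⊆ out E x ∩ B := by
        intro y hy
        simp only [out, mem_inter, mem_filter, mem_univ, true_and] at hy ⊢
        exact ⟨hcl.sub hy.1, hy.2⟩
      exact_mod_cast card_le_card this
    have h4 : (3 / 4 - δ) * D ≤ ((out E x ∩ B).card : ℝ) := by nlinarith [hx.2]
    have h5 := hLo β (Fin N) (out E x ∩ B) (fun _ => 1) (fun _ => g) 1 (3 / 10) 0
      (149 / 100 * (L : ℝ) ^ 2) one_pos (by norm_num) (by norm_num) (by positivity)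
      (fun _ _ => ⟨by norm_num, le_refl _⟩) (by
        rw [hgc, sum_const, nsmul_eq_mul, one_mul, mul_one_div, le_div_iff₀ hN0]
        nlinarith)
    refine (pr_mono ?_).trans (h5.trans ?_)
    · intro ω hω
      have h6 : (out E x ∩ Q ω).card < L ^ 2 := hω
      have h7 : ((out E x ∩ Q ω).card : ℝ) < (L : ℝ) ^ 2 := by exact_mod_cast h6
      rw [hcard x ω] at h7
      refine le_trans (le_of_eq (sum_congr rfl fun u _ => by congr)) (h7.le.trans ?_)
      nlinarith
    · apply Real.exp_le_exp.mpr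
      nlinarith
  -- second kind of error
  have hp2 : ∀ x ∈ G2, pr {ω : β → Fin N | L ^ 2 ≤ (out E x ∩ Q ω).card}
      ≤ Real.exp (-((L : ℝ) ^ 2 / 15)) := by
    intro x hx
    rw [hG2, mem_filter] at hx
    have h1 := hcl.ol x
    have h1' := hcl.ou x
    have h2 : ((out E x ∩ B).card : ℝ) + (out R x ∩ Y).card ≤
        (out R x ∩ B).card + (out E x ∩ Y).card := by
      have e1 : (out E x ∩ B).card + (out R x ∩ Y).card ≤
          (out R x ∩ B).card + (out E x ∩ Y).card := by
        have hsub1 : (out E x ∩ B) ∩ (out R x ∩ Y) ⊆ out R x ∩ B := by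
          intro y hy
          simp only [mem_inter] at hy ⊢
          tauto
        have hsub2 : (out E x ∩ B) ∪ (out R x ∩ Y) ⊆ out E x ∩ Y := by
          intro y hy
          simp only [out, mem_inter, mem_union, mem_filter, mem_univ, true_and] at hy ⊢
          rcases hy with hy | hy
          · exact ⟨hy.1, hBY hy.2⟩
          · exact ⟨hcl.sub hy.1, hy.2⟩
        have e2 := card_union_add_card_inter (out E x ∩ B) (out R x ∩ Y)
        have e3 := card_le_card hsub1
        have e4 := card_le_card hsub2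
        omega
      exact_mod_cast e1
    have h4 : ((out E x ∩ B).card : ℝ) ≤ (1 / 8 + 2 * δ) * D := by nlinarith [hx.2.1]
    have h5 := hU β (Fin N) (out E x ∩ B) (fun _ => 1) (fun _ => g) 1 1 (44 / 100 * (L : ℝ) ^ 2)
      (28 / 100 * (L : ℝ) ^ 2) one_pos (by norm_num) (by norm_num)
      (fun _ _ => ⟨by norm_num, le_refl _⟩) (by
        rw [hgc, sum_const, nsmul_eq_mul, one_mul, mul_one_div, div_le_iff₀ hN0]
        nlinarith)
    refine (pr_mono ?_).trans (h5.trans ?_)
    · intro ω hω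
      have h6 : L ^ 2 ≤ (out E x ∩ Q ω).card := hω
      have h7 : (L : ℝ) ^ 2 ≤ ((out E x ∩ Q ω).card : ℝ) := by exact_mod_cast h6
      rw [hcard x ω] at h7
      refine le_trans ?_ (h7.trans (le_of_eq (sum_congr rfl fun u _ => by congr)))
      nlinarith
    · apply Real.exp_le_exp.mpr
      nlinarith
  -- the size of `G2`
  have hG2c : (G2.card : ℝ) ≤ 2 * D * B.card := by
    have h1 : G2 ⊆ B.biUnion fun y => inn E y ∩ X := by
      intro x hx
      rw [hG2, mem_filter] at hx
      obtain ⟨y, hy⟩ := hx.2.2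
      rw [mem_inter] at hy
      rw [mem_biUnion]
      refine ⟨y, hy.2, ?_⟩
      simp only [inn, out, mem_inter, mem_filter, mem_univ, true_and] at hy ⊢
      exact ⟨hy.1, (mem_sdiff.mp hx.1).1⟩
    calc (G2.card : ℝ) ≤ ((B.biUnion fun y => inn E y ∩ X).card : ℝ) := by
          exact_mod_cast card_le_card h1
      _ ≤ ∑ y ∈ B, ((inn E y ∩ X).card : ℝ) := by exact_mod_cast card_biUnion_le
      _ ≤ ∑ _y ∈ B, (2 * D) := by
          apply sum_le_sum
          intro y _
          have := hcl.iu y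
          nlinarith
      _ = 2 * D * B.card := by rw [sum_const, nsmul_eq_mul]; ring
  -- averaging
  set I1 : α → (β → Fin N) → ℝ := fun x ω => if ω ∈ {ω : β → Fin N | (out E x ∩ Q ω).card < L ^ 2}
    then 1 else 0 with hI1
  set I2 : α → (β → Fin N) → ℝ := fun x ω => if ω ∈ {ω : β → Fin N | L ^ 2 ≤ (out E x ∩ Q ω).card}
    then 1 else 0 with hI2
  set I3 : β → (β → Fin N) → ℝ := fun y ω => if ω ∈ {ω : β → Fin N | ω y ∈ g} then 1 else 0
    with hI3
  set f : (β → Fin N) → ℝ := fun ω => (D / (L : ℝ) ^ 2) * (∑ y ∈ B, I3 y ω) +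
    (16 * D) * ((∑ x ∈ G1, I1 x ω) + ∑ x ∈ G2, I2 x ω) with hf
  set ep := Real.exp (-((L : ℝ) ^ 2 / 15)) with hep
  have hep0 : 0 < ep := Real.exp_pos _
  have hexf : ex f ≤ 4 * ((A.card : ℝ) + B.card) := by
    have e1 : ex f = (D / (L : ℝ) ^ 2) * (∑ y ∈ B, ex (I3 y)) +
        (16 * D) * ((∑ x ∈ G1, ex (I1 x)) + ∑ x ∈ G2, ex (I2 x)) := by
      rw [hf, ex_add, ex_mul, ex_mul, ex_add, ex_sum, ex_sum, ex_sum]
    have e2 : ∑ y ∈ B, ex (I3 y) = B.card * (1 / N) := by
      rw [← nsmul_eq_mul, ← sum_const]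
      apply sum_congr rfl
      intro y _
      have e0 : ex (I3 y) = pr {ω : β → Fin N | ω y ∈ g} := by
        rw [pr_eq_ex]
        congr 1
        funext ω
        simp only [hI3]
        congr
      rw [e0, pr_coord, hgc]
    have e3 : ∑ x ∈ G1, ex (I1 x) ≤ A.card * ep := by
      calc ∑ x ∈ G1, ex (I1 x) ≤ ∑ _x ∈ G1, ep := by
            apply sum_le_sum
            intro x hx
            have e0 : ex (I1 x) = pr {ω : β → Fin N | (out E x ∩ Q ω).card < L ^ 2} := by
              rw [pr_eq_ex]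
              congr 1
              funext ω
              simp only [hI1]
              congr
            rw [e0]
            exact hp1 x hx
        _ = G1.card * ep := by rw [sum_const, nsmul_eq_mul]
        _ ≤ A.card * ep := by
            apply mul_le_mul_of_nonneg_right _ hep0.le
            exact_mod_cast card_le_card (filter_subset _ _)
    have e4 : ∑ x ∈ G2, ex (I2 x) ≤ 2 * D * B.card * ep := by
      calc ∑ x ∈ G2, ex (I2 x) ≤ ∑ _x ∈ G2, ep := by
            apply sum_le_sum
            intro x hx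
            have e0 : ex (I2 x) = pr {ω : β → Fin N | L ^ 2 ≤ (out E x ∩ Q ω).card} := by
              rw [pr_eq_ex]
              congr 1
              funext ω
              simp only [hI2]
              congr
            rw [e0]
            exact hp2 x hx
        _ = G2.card * ep := by rw [sum_const, nsmul_eq_mul]
        _ ≤ 2 * D * B.card * ep := mul_le_mul_of_nonneg_right hG2c hep0.le
    have e5 : (D / (L : ℝ) ^ 2) * (B.card * (1 / N)) ≤ 201 / 100 * B.card := by
      have h1 : D / (L : ℝ) ^ 2 * (1 / N) ≤ 201 / 100 := by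
        rw [div_mul_div_comm, mul_one, div_le_iff₀ (by positivity)]
        nlinarith
      have h2 : (D / (L : ℝ) ^ 2) * (B.card * (1 / N)) = (D / (L : ℝ) ^ 2 * (1 / N)) * B.card := by
        ring
      rw [h2]
      exact mul_le_mul_of_nonneg_right h1 (Nat.cast_nonneg _)
    have e6 := num_small hL hD0.le hD2
    have hD1' : (1 : ℝ) ≤ D := by nlinarith
    have e7 : (16 * D) * (A.card * ep + 2 * D * B.card * ep) ≤ (A.card : ℝ) + B.card := by
      have hA0 : (0 : ℝ) ≤ A.card := Nat.cast_nonneg _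
      have hB0 : (0 : ℝ) ≤ B.card := Nat.cast_nonneg _
      have h1 : 16 * D * ep ≤ 16 * D * (2 * D) * ep := by
        have : 0 ≤ 16 * D * ep := by positivity
        nlinarith
      have h2 : 16 * D * ep ≤ 1 := h1.trans e6
      calc (16 * D) * (A.card * ep + 2 * D * B.card * ep)
          = (16 * D * ep) * A.card + (16 * D * (2 * D) * ep) * B.card := by ring
        _ ≤ 1 * A.card + 1 * B.card := by
            apply add_le_add
            · exact mul_le_mul_of_nonneg_right h2 hA0
            · exact mul_le_mul_of_nonneg_right e6 hB0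
        _ = _ := by ring
    rw [e1, e2]
    have e8 : (16 * D) * ((∑ x ∈ G1, ex (I1 x)) + ∑ x ∈ G2, ex (I2 x)) ≤
        (16 * D) * (A.card * ep + 2 * D * B.card * ep) :=
      mul_le_mul_of_nonneg_left (add_le_add e3 e4) (by positivity)
    have hA0 : (0 : ℝ) ≤ A.card := Nat.cast_nonneg _
    have hB0 : (0 : ℝ) ≤ B.card := Nat.cast_nonneg _
    linarith
  obtain ⟨ω, hω⟩ := exists_le_of_ex_le hexf
  have hI1n : ∀ x, 0 ≤ I1 x ω := fun x => by simp only [hI1]; split_ifs <;> norm_num
  have hI2n : ∀ x, 0 ≤ I2 x ω := fun x => by simp only [hI2]; split_ifs <;> norm_num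
  have hI3n : ∀ x, 0 ≤ I3 x ω := fun x => by simp only [hI3]; split_ifs <;> norm_num
  have hs1 : 0 ≤ ∑ x ∈ G1, I1 x ω := sum_nonneg fun x _ => hI1n x
  have hs2 : 0 ≤ ∑ x ∈ G2, I2 x ω := sum_nonneg fun x _ => hI2n x
  have hs3 : 0 ≤ ∑ x ∈ B, I3 x ω := sum_nonneg fun x _ => hI3n x
  have hQc : ((Q ω).card : ℝ) = ∑ y ∈ B, I3 y ω := by
    simp only [hI3, Set.mem_ofPred_eq]
    rw [sum_ite, sum_const_zero, add_zero, sum_const, nsmul_eq_mul, mul_one]
  have hfω : (D / (L : ℝ) ^ 2) * (∑ y ∈ B, I3 y ω) +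
    (16 * D) * ((∑ x ∈ G1, I1 x ω) + ∑ x ∈ G2, I2 x ω) ≤ 4 * ((A.card : ℝ) + B.card) := hω
  refine ⟨Q ω, filter_subset _ _, ?_, ?_⟩
  · rw [hQc]
    have h1 : (D / (L : ℝ) ^ 2) * (∑ y ∈ B, I3 y ω) ≤ 4 * ((A.card : ℝ) + B.card) := by
      have : 0 ≤ (16 * D) * ((∑ x ∈ G1, I1 x ω) + ∑ x ∈ G2, I2 x ω) := by positivity
      linarith
    rw [le_div_iff₀ hD0]
    rw [div_mul_eq_mul_div, div_le_iff₀ (by positivity)] at h1
    linarith
  · -- the symmetric difference
    have h1 : (∑ x ∈ G1, I1 x ω) + ∑ x ∈ G2, I2 x ω ≤ ((A.card : ℝ) + B.card) / (4 * D) := by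
      have h2 : 0 ≤ (D / (L : ℝ) ^ 2) * (∑ y ∈ B, I3 y ω) := by positivity
      rw [le_div_iff₀ (by positivity)]
      linarith
    -- bad vertices
    set B1 := A.filter fun x => ¬ ((out R x ∩ (Y \ B)).card : ℝ) < D / 4 with hB1
    set B2 := (X \ A).filter fun x => ¬ ((out R x ∩ B).card : ℝ) < D / 8 with hB2
    have hb1 : (B1.card : ℝ) ≤ 4 * (aou R X Y A B).card / D := by
      have e1 : (B1.card : ℝ) * (D / 4) ≤ (aou R X Y A B).card := by
        have e2 : (B1.biUnion fun x => (out R x ∩ (Y \ B)).image fun y => (x, y)) ⊆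
            aou R X Y A B := by
          intro a ha
          rw [mem_biUnion] at ha
          obtain ⟨x, hx, ha⟩ := ha
          rw [mem_image] at ha
          obtain ⟨y, hy, rfl⟩ := ha
          rw [hB1, mem_filter] at hx
          simp only [out, mem_inter, mem_filter, mem_univ, true_and, mem_sdiff] at hy
          simp only [aou, mem_filter]
          exact ⟨hy.1, ⟨hAX hx.1, hx.1⟩, hy.2.1, hy.2.2⟩
        have e3 : (B1.biUnion fun x => (out R x ∩ (Y \ B)).image fun y => (x, y)).card
            = ∑ x ∈ B1, (out R x ∩ (Y \ B)).card := by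
          rw [card_biUnion]
          · apply sum_congr rfl
            intro x _
            exact card_image_of_injective _ (fun y y' h => (Prod.mk.inj h).2)
          · intro x _ x' _ hxx'
            rw [Function.onFun, disjoint_left]
            intro a ha ha'
            rw [mem_image] at ha ha'
            obtain ⟨y, _, rfl⟩ := ha
            obtain ⟨y', _, h⟩ := ha'
            exact hxx' (Prod.mk.inj h).1.symm
        calc (B1.card : ℝ) * (D / 4) = ∑ _x ∈ B1, D / 4 := by rw [sum_const, nsmul_eq_mul]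
          _ ≤ ∑ x ∈ B1, ((out R x ∩ (Y \ B)).card : ℝ) := by
              apply sum_le_sum
              intro x hx
              exact not_lt.mp (mem_filter.mp hx).2
          _ = (((B1.biUnion fun x => (out R x ∩ (Y \ B)).image fun y => (x, y)).card : ℕ) : ℝ) := by
              rw [e3]; push_cast; rfl
          _ ≤ _ := by exact_mod_cast card_le_card e2
      rw [le_div_iff₀ hD0]
      linarith
    have hb2 : (B2.card : ℝ) ≤ 8 * (ain R X Y A B).card / D := by
      have e1 : (B2.card : ℝ) * (D / 8) ≤ (ain R X Y A B).card := by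
        have e2 : (B2.biUnion fun x => (out R x ∩ B).image fun y => (x, y)) ⊆
            ain R X Y A B := by
          intro a ha
          rw [mem_biUnion] at ha
          obtain ⟨x, hx, ha⟩ := ha
          rw [mem_image] at ha
          obtain ⟨y, hy, rfl⟩ := ha
          rw [hB2, mem_filter, mem_sdiff] at hx
          simp only [out, mem_inter, mem_filter, mem_univ, true_and] at hy
          simp only [ain, mem_filter]
          exact ⟨hy.1, ⟨hx.1.1, hx.1.2⟩, hBY hy.2, hy.2⟩
        have e3 : (B2.biUnion fun x => (out R x ∩ B).image fun y => (x, y)).card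
            = ∑ x ∈ B2, (out R x ∩ B).card := by
          rw [card_biUnion]
          · apply sum_congr rfl
            intro x _
            exact card_image_of_injective _ (fun y y' h => (Prod.mk.inj h).2)
          · intro x _ x' _ hxx'
            rw [Function.onFun, disjoint_left]
            intro a ha ha'
            rw [mem_image] at ha ha'
            obtain ⟨y, _, rfl⟩ := ha
            obtain ⟨y', _, h⟩ := ha'
            exact hxx' (Prod.mk.inj h).1.symm
        calc (B2.card : ℝ) * (D / 8) = ∑ _x ∈ B2, D / 8 := by rw [sum_const, nsmul_eq_mul]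
          _ ≤ ∑ x ∈ B2, ((out R x ∩ B).card : ℝ) := by
              apply sum_le_sum
              intro x hx
              exact not_lt.mp (mem_filter.mp hx).2
          _ = (((B2.biUnion fun x => (out R x ∩ B).image fun y => (x, y)).card : ℕ) : ℝ) := by
              rw [e3]; push_cast; rfl
          _ ≤ _ := by exact_mod_cast card_le_card e2
      rw [le_div_iff₀ hD0]
      linarith
    set S1 := G1.filter fun x => (out E x ∩ Q ω).card < L ^ 2 with hS1
    set S2 := G2.filter fun x => L ^ 2 ≤ (out E x ∩ Q ω).card with hS2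
    have hS1c : (S1.card : ℝ) = ∑ x ∈ G1, I1 x ω := by
      simp only [hI1, Set.mem_ofPred_eq]
      rw [sum_ite, sum_const_zero, add_zero, sum_const, nsmul_eq_mul, mul_one]
    have hS2c : (S2.card : ℝ) = ∑ x ∈ G2, I2 x ω := by
      simp only [hI2, Set.mem_ofPred_eq]
      rw [sum_ite, sum_const_zero, add_zero, sum_const, nsmul_eq_mul, mul_one]
    have hL2n : 1 ≤ L ^ 2 := Nat.one_le_pow _ _ (by omega)
    have hsub : symmDiff A (X ∩ clO E (L ^ 2) (Q ω)) ⊆ (B1 ∪ B2) ∪ (S1 ∪ S2) := by
      intro x hx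
      rw [mem_symmDiff] at hx
      simp only [clO, mem_inter, mem_filter, mem_univ, true_and, not_and] at hx
      rcases hx with ⟨hxA, hx2⟩ | ⟨⟨hxX, hx2⟩, hxA⟩
      · have h3 : (out E x ∩ Q ω).card < L ^ 2 := not_le.mp (hx2 (hAX hxA))
        by_cases h4 : ((out R x ∩ (Y \ B)).card : ℝ) < D / 4
        · apply mem_union_right
          apply mem_union_left
          exact mem_filter.mpr ⟨mem_filter.mpr ⟨hxA, h4⟩, h3⟩
        · apply mem_union_left
          apply mem_union_left
          exact mem_filter.mpr ⟨hxA, h4⟩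
      · by_cases h4 : ((out R x ∩ B).card : ℝ) < D / 8
        · apply mem_union_right
          apply mem_union_right
          refine mem_filter.mpr ⟨mem_filter.mpr ⟨mem_sdiff.mpr ⟨hxX, hxA⟩, h4, ?_⟩, hx2⟩
          have h5 : 0 < (out E x ∩ Q ω).card := by omega
          obtain ⟨y, hy⟩ := card_pos.mp h5
          refine ⟨y, ?_⟩
          rw [mem_inter] at hy ⊢
          exact ⟨hy.1, (mem_filter.mp hy.2).1⟩
        · apply mem_union_left
          apply mem_union_right
          exact mem_filter.mpr ⟨mem_sdiff.mpr ⟨hxX, hxA⟩, h4⟩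
    have hfin : ((symmDiff A (X ∩ clO E (L ^ 2) (Q ω))).card : ℝ) ≤
        ((B1.card : ℝ) + B2.card) + (S1.card + S2.card) := by
      have e1 := card_le_card hsub
      have e2 := card_union_le (B1 ∪ B2) (S1 ∪ S2)
      have e3 := card_union_le B1 B2
      have e4 := card_union_le S1 S2
      have e5 : (symmDiff A (X ∩ clO E (L ^ 2) (Q ω))).card ≤
        (B1.card + B2.card) + (S1.card + S2.card) := by omega
      exact_mod_cast e5
    rw [hS1c, hS2c] at hfin
    linarith

end Pool.Agent.LAP.H46
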